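import Pool.Agent.Q101.IgAllE

/-!
# Typical compact group extensions of ergodic interval exchange transformations are ergodic

Let `T` be an exchange of `d` half-open intervals of `[0,1)` which is ergodic for Lebesgue measure and
let `G` be a compact connected group with a countable base (for instance a compact connected Lie
group). For almost every `(g 1, ..., g d)` in `G^d` (Haar measure) the extension
`T_φ (x, y) = (T x, φ(x) y)`, where `φ = g j` on the `j`-th interval, is ergodic for the product of
Lebesgue measure and Haar measure. There is no condition on the ergodic interval exchange.

Idea of the proof. A two-sided Rauzy induction (cutting at the left or at the right end, whichever is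
farther from a given point) gives a countable family of induced interval exchanges on intervals `J`
which shrink to every point `x` of `[0,1)`; infinitely often two different pieces of `J` have length
at least `|J| / (4 d)` (if the longest piece had more than three quarters of `J` from some time on, its
label would never lose, its translation would be constant and tend to zero). The return cocycle of the
induced map is given by positive words in the `g j` which are obtained by Nielsen moves, so the
`d`-tuple of return elements is again distributed by Haar measure of `G^d`. If `F` is an equivariant
function with values in a unitary representation `ρ` orthogonal to the fixed vectors, then at a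
Lebesgue point `x` the two return elements of the long pieces almost fix the unit vector `F x`.
By Fatou's lemma the probability of this event is at most the Haar measure of the set of pairs
`(a, b)` in `G²` for which `ρ a`, `ρ b` have a common `ε`-almost fixed unit vector orthogonal to the
fixed vectors; this tends to zero with `ε`, since the determinant which detects common fixed vectors
of `ρ a`, `ρ b` is a coefficient of a representation of the connected group `G × G`, so it is
identically zero or nonzero almost everywhere, and by the root space decomposition of the compact Lie
algebra of `ρ(G)` some pairs of one-parameter groups have no further common fixed vectors. The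
Peter-Weyl theorem concludes.

The parts of the proof (modules `Pool.Agent.Q101.Ig...`) were written by helpers 65, 101, 121, 162,
192, 224, 239, 275 and 280.
-/

set_option autoImplicit false

open MeasureTheory Set

namespace Pool.Agent.Results.MP_5ca0ff_an.TypicalExtensionsErgodic

variable {d : ℕ}

/-- The left endpoint of the `j`-th exchanged interval. -/
noncomputable def left (lam : Fin d → ℝ) (j : Fin d) : ℝ :=
  ∑ i ∈ Finset.univ.filter (fun i => i < j), lam i

/-- The left endpoint of the image of the `j`-th interval, which comes at the place `σ j`. -/
noncomputable def left' (lam : Fin d → ℝ) (σ : Equiv.Perm (Fin d)) (j : Fin d) : ℝ :=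
  ∑ i ∈ Finset.univ.filter (fun i => σ i < σ j), lam i

/-- The `j`-th exchanged interval, of length `lam j`. -/
noncomputable def piece (lam : Fin d → ℝ) (j : Fin d) : Set ℝ :=
  Ico (left lam j) (left lam j + lam j)

/-- The interval exchange transformation of `[0,1)` (the identity outside of `[0,1)`): the `j`-th
interval is translated from `left lam j` to `left' lam σ j`. -/
noncomputable def iet (lam : Fin d → ℝ) (σ : Equiv.Perm (Fin d)) (x : ℝ) : ℝ :=
  x + ∑ j, (piece lam j).indicator (fun _ => left' lam σ j - left lam j) x

/-- Lebesgue measure on `[0,1)`. -/
noncomputable def leb : Measure ℝ := volume.restrict (Ico (0 : ℝ) 1)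

variable {G : Type} [Group G]

open Classical in
/-- The simple function with the value `g j` on the `j`-th interval (and `1` outside of `[0,1)`). -/
noncomputable def stepFn (lam : Fin d → ℝ) (g : Fin d → G) (x : ℝ) : G :=
  if h : ∃ j, x ∈ piece lam j then g h.choose else 1

/-- The `G`-extension `(x, y) ↦ (T x, φ(x) y)` of the interval exchange transformation `T`. -/
noncomputable def skew (lam : Fin d → ℝ) (σ : Equiv.Perm (Fin d)) (g : Fin d → G) (p : ℝ × G) :
    ℝ × G :=
  (iet lam σ p.1, stepFn lam g p.1 * p.2)

theorem result (d : ℕ) (lam : Fin d → ℝ) (σ : Equiv.Perm (Fin d)) (hpos : ∀ j, 0 < lam j)
    (hsum : ∑ j, lam j = 1) (hT : Ergodic (iet lam σ) leb)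
    (G : Type) [Group G] [TopologicalSpace G] [IsTopologicalGroup G] [CompactSpace G]
    [ConnectedSpace G] [T2Space G] [SecondCountableTopology G] [MeasurableSpace G] [BorelSpace G]
    (μ : Measure G) [μ.IsHaarMeasure] [IsProbabilityMeasure μ] :
    ∀ᵐ g ∂(Measure.pi fun _ : Fin d => μ), Ergodic (skew lam σ g) (leb.prod μ) :=
  Q101Ig.all_erg d lam σ hpos hsum hT G μ

end Pool.Agent.Results.MP_5ca0ff_an.TypicalExtensionsErgodic
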